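import Pool.Agent.Helper16.WM.Pow
import Pool.Agent.Helper16.WM.Coord

set_option autoImplicit false

/-! # Functional equations at a point: definition, powers, transfer to the real numbers -/

namespace Pool.Agent.Helper16.WL

open MvPolynomial Pool.Agent.H628R4.TP Pool.Agent.Helper48.RC Pool.Agent.Helper16.WM.PowN

/-- `b(s) f ^ s = P(s) f ^ (s + 1)` at the point `x₀`: the coefficients of the differential operator
`P(s)` (polynomial in `s`) are quotients of polynomials by one polynomial `u` with `u(x₀) ≠ 0` (regular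
functions at `x₀`). The equation is multiplied by `u`, and stated for all `s ∈ ℕ`; this is equivalent to the
formal equation, as the coefficients are polynomials in `s`. -/
def IsBFunctionAt {N : ℕ} (x₀ : Fin N → ℂ) (f : MvPolynomial (Fin N) ℂ) (b : Polynomial ℂ) : Prop :=
  ∃ u : MvPolynomial (Fin N) ℂ, eval x₀ u ≠ 0 ∧ ∃ P : ℕ →₀ weylS (Fin N), ∀ s : ℕ,
    u * (C (b.eval (s : ℂ)) * f ^ s) =
      P.sum fun m Q => ((s : ℂ) ^ m) • (Q : Module.End ℂ (MvPolynomial (Fin N) ℂ)) (f ^ (s + 1))

theorem fam_of_at {N : ℕ} {x₀ : Fin N → ℂ} {f : MvPolynomial (Fin N) ℂ} {b : Polynomial ℂ}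
    (h : IsBFunctionAt x₀ f b) : ∃ u : MvPolynomial (Fin N) ℂ, eval x₀ u ≠ 0 ∧
      (fun s : ℕ => u * (C (b.eval (s : ℂ)) * f ^ s)) ∈ Fam f := by
  obtain ⟨u, hu, P, hP⟩ := h
  refine ⟨u, hu, ?_⟩
  have h1 : ∀ Q : Module.End ℂ (MvPolynomial (Fin N) ℂ), Q ∈ weylS (Fin N) → ∀ E ∈ Fam f,
      (fun s => Q (E s)) ∈ Fam f := by
    intro Q hQ
    refine Algebra.adjoin_induction (p := fun Q _ => ∀ E ∈ Fam f, (fun s => Q (E s)) ∈ Fam f)
      ?_ ?_ ?_ ?_ hQ
    · rintro Q (⟨i, rfl⟩ | ⟨i, rfl⟩) E hE
      · refine fam_map f f (fun s p => LinearMap.mulLeft ℂ (X i : MvPolynomial (Fin N) ℂ) p)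
          (fun s => map_zero _) (fun s p q => map_add _ _ _) (fun m p β => ?_) E hE
        have h2 : (fun s => LinearMap.mulLeft ℂ (X i : MvPolynomial (Fin N) ℂ) (gen f m p β s)) =
            gen f m (X i * p) β := by
          funext s
          rw [LinearMap.mulLeft_apply, gen, gen]
          ring
        rw [h2]
        exact gen_mem _ _ _ _
      · refine fam_map f f (fun s p => pderiv i p)
          (fun s => map_zero _) (fun s p q => map_add _ _ _) (fun m p β => ?_) E hE
        have h2 : (fun s => pderiv i (gen f m p β s)) =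
            gen f m (pderiv i p) β + gen f m p (i :: β) := by
          funext s
          rw [Pi.add_apply, gen, gen, gen, pderiv_C_mul, pderiv_mul, dd_cons]
          ring
        rw [h2]
        exact (Fam f).add_mem (gen_mem _ _ _ _) (gen_mem _ _ _ _)
    · intro r E hE
      refine fam_map f f (fun s p => algebraMap ℂ (Module.End ℂ (MvPolynomial (Fin N) ℂ)) r p)
        (fun s => map_zero _) (fun s p q => map_add _ _ _) (fun m p β => ?_) E hE
      have h2 : (fun s => algebraMap ℂ (Module.End ℂ (MvPolynomial (Fin N) ℂ)) r (gen f m p β s)) =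
          gen f m (C r * p) β := by
        funext s
        rw [Module.algebraMap_end_apply, smul_eq_C_mul, gen, gen]
        ring
      rw [h2]
      exact gen_mem _ _ _ _
    · intro Q₁ Q₂ _ _ h1 h2 E hE
      exact (Fam f).add_mem (h1 E hE) (h2 E hE)
    · intro Q₁ Q₂ _ _ h1 h2 E hE
      exact h1 _ (h2 E hE)
  have h2 : (fun s : ℕ => u * (C (b.eval (s : ℂ)) * f ^ s)) =
      ∑ m ∈ P.support, fun s : ℕ => (P m : Module.End ℂ (MvPolynomial (Fin N) ℂ))
        (gen f m 1 [] s) := by
    funext s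
    rw [hP s, Finset.sum_apply, Finsupp.sum]
    refine Finset.sum_congr rfl fun m _ => ?_
    rw [gen, dd_nil, one_mul, ← smul_eq_C_mul, map_smul]
  rw [h2]
  exact (Fam f).sum_mem fun m _ => h1 _ (P m).2 _ (gen_mem _ _ _ _)

section Pow

variable {σ K : Type} [Field K]

/-- the sequences which are in the family after the multiplication by a power of `u` -/
def SFam (u f : MvPolynomial σ K) (a : ℕ → ℕ) (E : ℕ → MvPolynomial σ K) : Prop :=
  ∃ n : ℕ, (fun s => u ^ n * E s) ∈ FamE f a

variable {u f : MvPolynomial σ K} {a : ℕ → ℕ}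

theorem SFam.add {E₁ E₂ : ℕ → MvPolynomial σ K} (h₁ : SFam u f a E₁) (h₂ : SFam u f a E₂) :
    SFam u f a (E₁ + E₂) := by
  obtain ⟨n₁, h₁⟩ := h₁
  obtain ⟨n₂, h₂⟩ := h₂
  refine ⟨n₁ + n₂, ?_⟩
  have h3 : (fun s => u ^ (n₁ + n₂) * (E₁ + E₂) s) =
      (fun s => u ^ n₂ * (u ^ n₁ * E₁ s)) + fun s => u ^ n₁ * (u ^ n₂ * E₂ s) := by
    funext s
    rw [Pi.add_apply, Pi.add_apply, pow_add]
    ring
  rw [h3]
  exact (FamE f a).add_mem (famE_mul f a _ _ h₁) (famE_mul f a _ _ h₂)

theorem SFam.mul (q : MvPolynomial σ K) {E : ℕ → MvPolynomial σ K} (h : SFam u f a E) :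
    SFam u f a (fun s => q * E s) := by
  obtain ⟨n, h⟩ := h
  refine ⟨n, ?_⟩
  have h3 : (fun s => u ^ n * (q * E s)) = fun s => q * (u ^ n * E s) := by
    funext s
    ring
  rw [h3]
  exact famE_mul f a _ _ h

theorem SFam.pow (m : ℕ) {E : ℕ → MvPolynomial σ K} (h : SFam u f a E) :
    SFam u f a (fun s : ℕ => C ((s : K) ^ m) * E s) := by
  obtain ⟨n, h⟩ := h
  refine ⟨n, ?_⟩
  have h3 : (fun s : ℕ => u ^ n * (C ((s : K) ^ m) * E s)) =
      fun s : ℕ => C ((s : K) ^ m) * (u ^ n * E s) := by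
    funext s
    ring
  rw [h3]
  exact famE_pow f a _ _ h

theorem SFam.pderiv (i : σ) {E : ℕ → MvPolynomial σ K} (h : SFam u f a E) :
    SFam u f a (fun s => MvPolynomial.pderiv i (E s)) := by
  obtain ⟨n, h⟩ := h
  refine ⟨n + 1, ?_⟩
  have h3 : (fun s => u ^ (n + 1) * MvPolynomial.pderiv i (E s)) =
      (fun s => MvPolynomial.pderiv i (u * (u ^ n * E s))) +
        fun s => (-((n : MvPolynomial σ K) + 1) * MvPolynomial.pderiv i u) * (u ^ n * E s) := by
    funext s
    rw [Pi.add_apply, ← mul_assoc, ← pow_succ', pderiv_mul, pderiv_pow, Nat.add_sub_cancel]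
    push_cast
    ring
  rw [h3]
  exact (FamE f a).add_mem (famE_pderiv f a i _ (famE_mul f a _ _ h)) (famE_mul f a _ _ h)

theorem SFam.dd (β : List σ) {E : ℕ → MvPolynomial σ K} (h : SFam u f a E) :
    SFam u f a (fun s => dd β (E s)) := by
  induction β with
  | nil => exact h
  | cons i β ih => exact ih.pderiv i

theorem sfam_of (E : ℕ → MvPolynomial σ K) (h : E ∈ FamE f a) : SFam u f a E := by
  refine ⟨0, ?_⟩
  simpa using h

theorem sfam_start (b : Polynomial K)
    (h : (fun s : ℕ => u * (C (b.eval (s : K)) * f ^ s)) ∈ Fam f) (M l : ℕ) :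
    SFam u f (fun s => M * s + (l + 1))
      (fun s : ℕ => C (b.eval ((M * s + l : ℕ) : K)) * f ^ (M * s + l)) := by
  have key : ∀ E ∈ Fam f, (fun s : ℕ => E (M * s + l)) ∈ FamE f (fun s => M * s + (l + 1)) := by
    intro E hE
    refine AddSubmonoid.closure_induction (motive := fun E _ =>
      (fun s : ℕ => E (M * s + l)) ∈ FamE f (fun s => M * s + (l + 1))) ?_ ?_ ?_ hE
    · rintro E ⟨m, p, β, rfl⟩
      have h1 := famE_poly f (fun s => M * s + (l + 1))
        ((Polynomial.C (M : K) * Polynomial.X + Polynomial.C (l : K)) ^ m) _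
        (genE_mem f (fun s => M * s + (l + 1)) 0 p β)
      have h2 : (fun s : ℕ => gen f m p β (M * s + l)) = fun s : ℕ =>
          C (((Polynomial.C (M : K) * Polynomial.X + Polynomial.C (l : K)) ^ m).eval (s : K)) *
            genE f (fun s => M * s + (l + 1)) 0 p β s := by
        funext s
        rw [gen, genE, pow_zero, C_1, one_mul, Polynomial.eval_pow, Polynomial.eval_add,
          Polynomial.eval_mul, Polynomial.eval_C, Polynomial.eval_X, Polynomial.eval_C,
          Nat.cast_add, Nat.cast_mul, add_assoc]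
      rw [h2]
      exact h1
    · exact (FamE f _).zero_mem
    · intro E₁ E₂ _ _ h1 h2
      exact (FamE f _).add_mem h1 h2
  refine ⟨1, ?_⟩
  rw [pow_one]
  exact key _ h

theorem sfam_step (b : Polynomial K)
    (h : (fun s : ℕ => u * (C (b.eval (s : K)) * f ^ s)) ∈ Fam f) (M l : ℕ)
    (E : ℕ → MvPolynomial σ K) (hE : SFam u f (fun s => M * s + l) E) :
    SFam u f (fun s => M * s + (l + 1))
      (fun s : ℕ => C (b.eval ((M * s + l : ℕ) : K)) * E s) := by
  set c : ℕ → MvPolynomial σ K := fun s => C (b.eval ((M * s + l : ℕ) : K)) with hc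
  have hadd : ∀ {E₁ E₂ : ℕ → MvPolynomial σ K},
      SFam u f (fun s => M * s + (l + 1)) (fun s => c s * E₁ s) →
      SFam u f (fun s => M * s + (l + 1)) (fun s => c s * E₂ s) →
      SFam u f (fun s => M * s + (l + 1)) (fun s => c s * (E₁ + E₂) s) := by
    intro E₁ E₂ h1 h2
    have h3 : (fun s : ℕ => c s * (E₁ + E₂) s) =
        (fun s : ℕ => c s * E₁ s) + fun s : ℕ => c s * E₂ s := by
      funext s
      rw [Pi.add_apply, Pi.add_apply, mul_add]
    rw [h3]
    exact h1.add h2
  have hzero : SFam u f (fun s => M * s + (l + 1))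
      (fun s => c s * (0 : ℕ → MvPolynomial σ K) s) := by
    refine ⟨0, ?_⟩
    have h1 : (fun s : ℕ => u ^ 0 * (c s * (0 : ℕ → MvPolynomial σ K) s)) = 0 := by
      funext s
      rw [Pi.zero_apply, mul_zero, mul_zero]
    rw [h1]
    exact (FamE f _).zero_mem
  let S : AddSubmonoid (ℕ → MvPolynomial σ K) :=
    { carrier := {E | SFam u f (fun s => M * s + (l + 1)) (fun s => c s * E s)}
      add_mem' := fun h1 h2 => hadd h1 h2
      zero_mem' := hzero }
  have hle : FamE f (fun s => M * s + l) ≤ S := by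
    refine AddSubmonoid.closure_le.2 ?_
    rintro E ⟨m, p, β, rfl⟩
    have h1 := (((sfam_start b h M l).dd β).mul p).pow m
    have h2 : (fun s : ℕ => c s * genE f (fun s => M * s + l) m p β s) =
        fun s : ℕ => C ((s : K) ^ m) *
          (p * dd β (C (b.eval ((M * s + l : ℕ) : K)) * f ^ (M * s + l))) := by
      funext s
      rw [genE, dd_C_mul, hc]
      ring
    change SFam u f (fun s => M * s + (l + 1))
      (fun s => c s * genE f (fun s => M * s + l) m p β s)
    rw [h2]
    exact h1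
  have key : ∀ E ∈ FamE f (fun s => M * s + l), SFam u f (fun s => M * s + (l + 1))
      (fun s : ℕ => c s * E s) := fun E hE => hle hE
  obtain ⟨n, hn⟩ := hE
  obtain ⟨n', hn'⟩ := key _ hn
  refine ⟨n' + n, ?_⟩
  have h1 : (fun s : ℕ => u ^ (n' + n) * (C (b.eval ((M * s + l : ℕ) : K)) * E s)) =
      fun s : ℕ => u ^ n' * (c s * (u ^ n * E s)) := by
    funext s
    rw [pow_add, hc]
    ring
  rw [h1]
  exact hn'

/-- functional equations of powers -/
theorem pow_at (b : Polynomial K) (M : ℕ)
    (h : (fun s : ℕ => u * (C (b.eval (s : K)) * f ^ s)) ∈ Fam f) :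
    ∃ n : ℕ, (fun s : ℕ => u ^ n * (C ((∏ l ∈ Finset.range M,
      b.comp (Polynomial.C (M : K) * Polynomial.X + Polynomial.C (l : K))).eval (s : K)) *
        (f ^ M) ^ s)) ∈ Fam (f ^ M) := by
  have key : ∀ n : ℕ, SFam u f (fun s => M * s + n) (fun s : ℕ => C ((∏ l ∈ Finset.range n,
      b.comp (Polynomial.C (M : K) * Polynomial.X + Polynomial.C (l : K))).eval (s : K)) *
        f ^ (M * s)) := by
    intro n
    induction n with
    | zero =>
      have h1 := genE_mem f (fun s => M * s + 0) 0 1 []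
      have h2 : genE f (fun s => M * s + 0) 0 1 [] = fun s : ℕ => C ((∏ l ∈ Finset.range 0,
          b.comp (Polynomial.C (M : K) * Polynomial.X + Polynomial.C (l : K))).eval (s : K)) *
            f ^ (M * s) := by
        funext s
        rw [genE, Finset.range_zero, Finset.prod_empty, Polynomial.eval_one, pow_zero, C_1, one_mul,
          one_mul, one_mul, dd_nil, add_zero]
      rw [← h2]
      exact sfam_of _ h1
    | succ n ih =>
      have h1 := sfam_step b h M n _ ih
      have h2 : (fun s : ℕ => C ((∏ l ∈ Finset.range (n + 1),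
          b.comp (Polynomial.C (M : K) * Polynomial.X + Polynomial.C (l : K))).eval (s : K)) *
            f ^ (M * s)) = fun s : ℕ => C (b.eval ((M * s + n : ℕ) : K)) * (C ((∏ l ∈ Finset.range n,
          b.comp (Polynomial.C (M : K) * Polynomial.X + Polynomial.C (l : K))).eval (s : K)) *
            f ^ (M * s)) := by
        funext s
        rw [Finset.prod_range_succ, Polynomial.eval_mul, C_mul, Polynomial.eval_comp,
          Polynomial.eval_add, Polynomial.eval_mul, Polynomial.eval_C, Polynomial.eval_X,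
          Polynomial.eval_C, Nat.cast_add, Nat.cast_mul]
        ring
      rw [h2]
      exact h1
  obtain ⟨n, h1⟩ := key M
  refine ⟨n, ?_⟩
  have h2 : FamE f (fun s => M * s + M) ≤ Fam (f ^ M) := by
    refine AddSubmonoid.closure_le.2 ?_
    rintro E ⟨m, p, β, rfl⟩
    have h3 : genE f (fun s => M * s + M) m p β = gen (f ^ M) m p β := by
      funext s
      rw [genE, gen, ← pow_mul, Nat.mul_succ]
    rw [h3]
    exact gen_mem _ _ _ _
  have h3 := h2 h1
  have h4 : (fun s : ℕ => u ^ n * (C ((∏ l ∈ Finset.range M,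
      b.comp (Polynomial.C (M : K) * Polynomial.X + Polynomial.C (l : K))).eval (s : K)) *
        (f ^ M) ^ s)) = fun s : ℕ => u ^ n * (C ((∏ l ∈ Finset.range M,
      b.comp (Polynomial.C (M : K) * Polynomial.X + Polynomial.C (l : K))).eval (s : K)) *
        f ^ (M * s)) := by
    funext s
    rw [← pow_mul]
  rw [h4]
  exact h3

end Pow

section Transfer

/-- from the complex numbers to the real numbers -/
theorem transfer_at {k : Type} [Field k] {N : ℕ} (ι : k →+* ℂ) (τ : k →+* ℝ)
    (g : MvPolynomial (Fin N) k) (v : MvPolynomial (Fin N) ℂ) (Q : Polynomial ℂ)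
    (h : (fun s : ℕ => v * (C (Q.eval (s : ℂ)) * (map ι g) ^ s)) ∈ Fam (map ι g)) (q : ℚ)
    (hq : eval 0 v * Q.eval (q : ℂ) ≠ 0) :
    ∃ (D : ℕ) (R : ℕ → MvPolynomial (Fin N) ℝ),
      (fun s : ℕ => (∑ j ∈ Finset.range D, C ((s : ℝ) ^ j) * R j) * (map τ g) ^ s) ∈ Fam (map τ g) ∧
      ∑ j ∈ Finset.range D, (q : ℝ) ^ j * eval 0 (R j) = 1 := by
  classical
  let _ : Algebra k ℂ := ι.toAlgebra
  have hchar : CharZero k := by
    refine ⟨fun a b hab => ?_⟩
    have h1 := congrArg ι hab
    rw [map_natCast, map_natCast] at h1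
    exact_mod_cast h1
  set z : ℂ := eval 0 v * Q.eval (q : ℂ) with hz
  obtain ⟨ρ, hρ⟩ : ∃ ρ : ℂ →ₗ[k] k, ρ z = 1 := by
    obtain ⟨ρ, hρ⟩ := LinearMap.exists_leftInverse_of_injective (LinearMap.toSpanSingleton k ℂ z)
      (LinearMap.ker_toSpanSingleton k hq)
    refine ⟨ρ, ?_⟩
    have := LinearMap.congr_fun hρ 1
    simpa using this
  set D : ℕ := Q.natDegree + 1 with hD
  set R₀ : ℕ → MvPolynomial (Fin N) k := fun j => rhoHat ρ (C (Q.coeff j) * v) with hR₀
  refine ⟨D, fun j => map τ (R₀ j), ?_, ?_⟩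
  · have h1 := fam_map (map ι g) (map τ g) (fun s p => map τ (rhoHat ρ p))
      (fun s => by rw [rhoHat_zero, map_zero])
      (fun s p q => by rw [rhoHat_add, map_add]) (fun m p β => ?_) _ h
    · have h2 : (fun s : ℕ => (∑ j ∈ Finset.range D, C ((s : ℝ) ^ j) * map τ (R₀ j)) *
          (map τ g) ^ s) = fun s : ℕ => map τ (rhoHat ρ (v * (C (Q.eval (s : ℂ)) *
            (map ι g) ^ s))) := by
        funext s
        have h3 : v * (C (Q.eval (s : ℂ)) * (map ι g) ^ s) =
            map (algebraMap k ℂ) (g ^ s) * ∑ j ∈ Finset.range D,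
              map (algebraMap k ℂ) (C ((s : k) ^ j)) * (C (Q.coeff j) * v) := by
          have h4 : C (Q.eval (s : ℂ)) = ∑ j ∈ Finset.range D,
              (map (algebraMap k ℂ) (C ((s : k) ^ j)) : MvPolynomial (Fin N) ℂ) *
                C (Q.coeff j) := by
            rw [Polynomial.eval_eq_sum_range, map_sum, hD]
            refine Finset.sum_congr rfl fun j _ => ?_
            rw [map_C, map_pow, map_natCast, ← C_mul, mul_comm]
          have h5 : (map ι g) ^ s = map (algebraMap k ℂ) (g ^ s) := (map_pow _ _ _).symm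
          rw [h4, h5, Finset.sum_mul, Finset.mul_sum, Finset.mul_sum]
          refine Finset.sum_congr rfl fun j _ => ?_
          ring
        rw [h3, rhoHat_mul, map_mul, map_pow, mul_comm]
        congr 1
        have h6 : ∀ S : Finset ℕ, rhoHat ρ (∑ j ∈ S,
            map (algebraMap k ℂ) (C ((s : k) ^ j)) * (C (Q.coeff j) * v)) =
              ∑ j ∈ S, C ((s : k) ^ j) * R₀ j := by
          intro S
          induction S using Finset.induction_on with
          | empty => rw [Finset.sum_empty, Finset.sum_empty, rhoHat_zero]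
          | insert j S hj ih =>
            rw [Finset.sum_insert hj, Finset.sum_insert hj, rhoHat_add, ih, rhoHat_mul]
        rw [h6, map_sum]
        refine Finset.sum_congr rfl fun j _ => ?_
        rw [map_mul, map_C, map_pow τ, map_natCast τ]
      rw [h2]
      exact h1
    · have h3 : (fun s => map τ (rhoHat ρ (gen (map ι g) m p β s))) =
          gen (map τ g) m (map τ (rhoHat ρ p)) β := by
        funext s
        have h4 : (C ((s : ℂ) ^ m) : MvPolynomial (Fin N) ℂ) =
            map (algebraMap k ℂ) (C ((s : k) ^ m)) := by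
          rw [map_C (algebraMap k ℂ), map_pow (algebraMap k ℂ), map_natCast (algebraMap k ℂ)]
        have h5 : map ι g = map (algebraMap k ℂ) g := rfl
        rw [gen, gen, h4, rhoHat_mul, h5, ← map_pow, ← map_dd, mul_comm p, rhoHat_mul,
          mul_comm (dd β _), map_mul, map_mul, map_C, map_dd, map_pow (map τ), map_pow τ,
          map_natCast τ]
      rw [h3]
      exact gen_mem _ _ _ _
  · have h1 : ∀ p : MvPolynomial (Fin N) ℂ, eval 0 (rhoHat ρ p) = ρ (eval 0 p) := by
      intro p
      rw [eval_zero, eval_zero, constantCoeff_eq, constantCoeff_eq, coeff_rhoHat]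
    have h2 : ∀ p : MvPolynomial (Fin N) k, eval 0 (map τ p) = τ (eval 0 p) := by
      intro p
      rw [eval_zero, eval_zero, constantCoeff_eq, constantCoeff_eq, coeff_map]
    have h3 : ∑ j ∈ Finset.range D, (q : ℝ) ^ j * eval 0 (map τ (R₀ j)) =
        τ (∑ j ∈ Finset.range D, (q : k) ^ j * eval 0 (R₀ j)) := by
      rw [map_sum]
      refine Finset.sum_congr rfl fun j _ => ?_
      rw [h2, map_mul, map_pow, map_ratCast]
    rw [h3]
    have h4 : ∑ j ∈ Finset.range D, (q : k) ^ j * eval 0 (R₀ j) = ρ z := by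
      rw [hz, Polynomial.eval_eq_sum_range, Finset.mul_sum, map_sum, hD]
      refine Finset.sum_congr rfl fun j _ => ?_
      rw [hR₀]
      change (q : k) ^ j * eval 0 (rhoHat ρ (C (Q.coeff j) * v)) = _
      rw [h1, map_mul, eval_C, ← smul_eq_mul, ← map_smul]
      congr 1
      rw [Algebra.smul_def, map_pow, map_ratCast]
      ring
    rw [h4, hρ, map_one]

end Transfer

end Pool.Agent.Helper16.WL
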