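import Pool.Agent.Helper16.WM.Loc
import Pool.Agent.Helper16.WL.Fam

set_option autoImplicit false

/-! # A critical integral over a chamber contradicts a functional equation with a coefficient which
is not zero near the point -/

namespace Pool.Agent.Helper16.WL

open MvPolynomial MeasureTheory Filter Topology ProbabilityTheory Pool.Agent.Helper48.RC
  Pool.Agent.Helper16.WM.AbsN Pool.Agent.Helper16.WM.AbsL
open scoped ContDiff

variable {σ : Type} [Fintype σ] {Δ : Set (σ → ℝ)}

theorem pb_sum {κ M : ℝ} (hM : 0 < M) (S : Finset ℕ) (F : ℕ → ℂ → ℂ) (h : ∀ j ∈ S, PB κ M (F j)) :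
    PB κ M (fun z => ∑ j ∈ S, F j z) := by
  classical
  induction S using Finset.induction_on with
  | empty =>
    simp only [Finset.sum_empty]
    exact PB.zero
  | insert j S hj ih =>
    have h1 : (fun z => ∑ j ∈ insert j S, F j z) = fun z => F j z + ∑ j ∈ S, F j z := by
      funext z
      rw [Finset.sum_insert hj]
    rw [h1]
    exact (h j (Finset.mem_insert_self j S)).add hM
      (ih fun i hi => h i (Finset.mem_insert_of_mem hi))

/-- the value at a real number -/
theorem J_real {u : (σ → ℝ) → ℝ} (W : Dom u Δ) {ψ : (σ → ℝ) → ℝ} (hψ : Test ψ) (t0 : ℝ)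
    (hI : IntT u Δ t0 ψ) (t : ℝ) (ht : t0 < t) :
    J u Δ ψ (t : ℂ) = ((∫ x in Δ, u x ^ t * ψ x : ℝ) : ℂ) := by
  rw [J, complexMGF_ofReal, complexMGF_ofReal, W.mgf_nu hψ, W.mgf_nu hψ.neg,
    ← Complex.ofReal_sub, ← integral_sub (hI t ht).1 (hI t ht).2]
  congr 1
  have h2 : ∫ x in Δ, u x ^ t * ψ x = ∫ x in Δ ∩ {x | ‖x‖ ≤ 2}, u x ^ t * ψ x := by
    apply setIntegral_eq_of_subset_of_forall_sdiff_eq_zero W.isOpen.measurableSet
      Set.inter_subset_left
    rintro x ⟨hx1, hx2⟩
    have h3 : 2 < ‖x‖ := by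
      by_contra h4
      exact hx2 ⟨hx1, not_lt.1 h4⟩
    rw [hψ.supp x h3, mul_zero]
  rw [h2, base]
  refine integral_congr_ae (Eventually.of_forall fun x => ?_)
  change u x ^ t * max (ψ x) 0 - u x ^ t * max (-ψ x) 0 = u x ^ t * ψ x
  rw [← mul_sub]
  congr 1
  rcases le_total 0 (ψ x) with h | h
  · rw [max_eq_left h, max_eq_right (by linarith), sub_zero]
  · rw [max_eq_right h, max_eq_left (by linarith)]
    ring

theorem root_at {g : MvPolynomial σ ℝ} (W : Dom (ev g) Δ) {κ : ℝ} (hκ0 : 0 < κ) (hκ1 : κ ≤ 1)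
    {ψ : (σ → ℝ) → ℝ} (hfr : ∀ x ∈ frontier Δ, x ∈ tsupport ψ → eval x g = 0) (hψ : Test ψ)
    (hψ0 : ∀ x ∈ Δ, 0 ≤ ψ x)
    (hint : ∀ t : ℝ, -κ < t → IntegrableOn (fun x => (ev g x) ^ t * ψ x) Δ)
    (htop : ∫⁻ x in Δ, ENNReal.ofReal ((ev g x) ^ (-κ) * ψ x) = ⊤)
    (D : ℕ) (R : ℕ → MvPolynomial σ ℝ)
    (hR : (fun s : ℕ => (∑ j ∈ Finset.range D, C ((s : ℝ) ^ j) * R j) * g ^ s) ∈ Fam g)
    (δ : ℝ) (hδ : 0 < δ)
    (hpos : ∀ t : ℝ, -κ < t → t < -κ + δ → ∀ x ∈ Δ, ψ x ≠ 0 →
      1 / 2 ≤ ∑ j ∈ Finset.range D, t ^ j * eval x (R j)) : False := by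
  classical
  obtain ⟨M, hM1, hM⟩ := W.exists_bound 2
  have hM0 : 0 < M := by linarith
  obtain ⟨G, hG, ⟨C', hC⟩, hGe⟩ := good_fam W hκ0 hκ1 hM1 hM hfr hψ _ hR
  have : IsFiniteMeasure (base Δ) := Dom.finite_base Δ
  -- integrability
  have hIp : ∀ p : MvPolynomial σ ℝ, ∀ t : ℝ, -κ < t →
      Integrable (fun x => (ev g x) ^ t * (ev p x * ψ x)) (base Δ) := by
    intro p t ht
    have h1 : Integrable (fun x => (ev g x) ^ t * ψ x) (base Δ) :=
      (hint t ht).mono_set Set.inter_subset_left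
    obtain ⟨Cp, hCp⟩ := (isCompact_closedBall (0 : σ → ℝ) 2).exists_bound_of_continuousOn
      (continuous_ev p).continuousOn
    have h2 : Integrable (fun x => (ev g x) ^ t * ψ x * ev p x) (base Δ) := by
      refine h1.mul_bdd (c := Cp) (continuous_ev p).aestronglyMeasurable ?_
      filter_upwards [W.ae_base] with x hx
      exact hCp x (by rw [mem_closedBall_zero_iff]; exact hx.2)
    refine h2.congr (Eventually.of_forall fun x => ?_)
    change ev g x ^ t * ψ x * ev p x = ev g x ^ t * (ev p x * ψ x)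
    ring
  have hIT : ∀ p : MvPolynomial σ ℝ, IntT (ev g) Δ (-κ) (fun x => ev p x * ψ x) := by
    intro p t ht
    have h1 := hIp p t ht
    constructor
    · refine h1.pos_part.congr ?_
      filter_upwards [W.ae_base] with x hx
      have h2 : 0 ≤ ev g x ^ t := Real.rpow_nonneg (W.pos x hx.1).le _
      rw [mul_max_of_nonneg _ _ h2, mul_zero]
    · refine h1.neg_part.congr ?_
      filter_upwards [W.ae_base] with x hx
      have h2 : 0 ≤ ev g x ^ t := Real.rpow_nonneg (W.pos x hx.1).le _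
      rw [mul_max_of_nonneg _ _ h2, mul_zero, mul_neg]
  -- the function of the complex variable
  set χ : ℕ → (σ → ℝ) → ℝ := fun j x => ev (R j) x * ψ x with hχ
  have hχT : ∀ j, Test (χ j) := fun j => hψ.mul (R j)
  have hJPB : ∀ j, PB κ M (J (ev g) Δ (χ j)) := by
    intro j
    obtain ⟨A, hA, hA'⟩ := W.J_bound hM1 hM (hχT j) (-κ) (-κ + 1) (by linarith) (hIT (R j))
    exact ⟨W.J_diff (hχT j) (-κ) (hIT (R j)), A, hA, 0, fun z hz => by simpa using hA' z hz⟩
  set F : ℂ → ℂ := fun z => ∑ j ∈ Finset.range D, z ^ j * J (ev g) Δ (χ j) z with hF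
  have hFPB : PB κ M F := pb_sum hM0 _ _ fun j _ => (hJPB j).pow_mul hM0 j
  have hreal : ∀ t : ℝ, -κ < t → F (t : ℂ) =
      ((∫ x in Δ, (∑ j ∈ Finset.range D, t ^ j * eval x (R j)) * ((ev g x) ^ t * ψ x) : ℝ) : ℂ) := by
    intro t ht
    have h0 : ∀ j, IntegrableOn (fun x => (ev g x) ^ t * (ev (R j) x * ψ x)) Δ := by
      intro j
      have h1 : IntegrableOn (fun x => (ev g x) ^ t * (ev (R j) x * ψ x)) (Δ ∩ {x | ‖x‖ ≤ 2}) :=
        hIp (R j) t ht
      refine h1.of_forall_sdiff_eq_zero W.isOpen.measurableSet fun x hx => ?_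
      have h3 : 2 < ‖x‖ := by
        by_contra h4
        exact hx.2 ⟨hx.1, not_lt.1 h4⟩
      rw [hψ.supp x h3, mul_zero, mul_zero]
    have h1 : ∫ x in Δ, (∑ j ∈ Finset.range D, t ^ j * eval x (R j)) * ((ev g x) ^ t * ψ x) =
        ∑ j ∈ Finset.range D, t ^ j * ∫ x in Δ, (ev g x) ^ t * (ev (R j) x * ψ x) := by
      simp only [← integral_const_mul]
      rw [← integral_finsetSum _ fun j _ => (h0 j).const_mul _]
      refine integral_congr_ae (Eventually.of_forall fun x => ?_)
      change (∑ j ∈ Finset.range D, t ^ j * eval x (R j)) * ((ev g x) ^ t * ψ x) =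
        ∑ j ∈ Finset.range D, t ^ j * ((ev g x) ^ t * (ev (R j) x * ψ x))
      rw [Finset.sum_mul]
      refine Finset.sum_congr rfl fun j _ => ?_
      rw [ev, ev]
      ring
    rw [h1, Complex.ofReal_sum]
    refine Finset.sum_congr rfl fun j _ => ?_
    rw [J_real W (hχT j) (-κ) (hIT (R j)) t ht, Complex.ofReal_mul, Complex.ofReal_pow]
  have hH0 : ∀ᶠ s : ℕ in atTop, F (s : ℂ) - G s = 0 := by
    filter_upwards [hGe] with s hs
    have h2 : (-κ : ℝ) < (s : ℝ) := by
      have : (0 : ℝ) ≤ (s : ℝ) := Nat.cast_nonneg _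
      linarith
    have h1 := hreal (s : ℝ) h2
    rw [Complex.ofReal_natCast] at h1
    rw [hs, h1, ← Complex.ofReal_sub, Complex.ofReal_eq_zero, sub_eq_zero]
    refine integral_congr_ae (Eventually.of_forall fun x => ?_)
    change (∑ j ∈ Finset.range D, (s : ℝ) ^ j * eval x (R j)) * ((eval x g) ^ (s : ℝ) * ψ x) =
      eval x ((∑ j ∈ Finset.range D, C ((s : ℝ) ^ j) * R j) * g ^ s) * ψ x
    rw [Real.rpow_natCast, map_mul, map_sum, map_pow, mul_assoc]
    congr 1
    refine Finset.sum_congr rfl fun j _ => ?_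
    rw [map_mul, eval_C]
  have hvan : ∀ t : ℝ, -κ < t → F (t : ℂ) = G t := by
    intro t ht
    have h1 := (hFPB.sub hM0 hG).vanish hM0 hκ0.le hH0 (t : ℂ) (by rwa [Complex.ofReal_re])
    exact sub_eq_zero.1 h1
  have hC0 : 0 ≤ C' := (norm_nonneg _).trans (hC (-κ + 1 / 2) (by linarith) (by linarith))
  have hbd : ∀ t : ℝ, -κ < t → t < -κ + min δ 1 →
      ∫⁻ x in Δ, ENNReal.ofReal (ev g x ^ t * ψ x) ≤ ENNReal.ofReal (2 * C') := by
    intro t h1 h2
    have h3 : t < -κ + δ := h2.trans_le (by linarith [min_le_left δ 1])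
    have h4 : t < -κ + 1 := h2.trans_le (by linarith [min_le_right δ 1])
    have hnn : 0 ≤ᵐ[volume.restrict Δ] fun x => ev g x ^ t * ψ x := by
      rw [EventuallyLE, ae_restrict_iff' W.isOpen.measurableSet]
      exact Eventually.of_forall fun x hx =>
        mul_nonneg (Real.rpow_nonneg (W.pos x hx).le _) (hψ0 x hx)
    rw [← ofReal_integral_eq_lintegral_ofReal (hint t h1) hnn]
    refine ENNReal.ofReal_le_ofReal ?_
    have h6 := hC t h1 h4
    rw [← hvan t h1, hreal t h1, Complex.norm_real, Real.norm_eq_abs] at h6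
    have h7 : ∫ x in Δ, (1 / 2 : ℝ) * (ev g x ^ t * ψ x) ≤
        ∫ x in Δ, (∑ j ∈ Finset.range D, t ^ j * eval x (R j)) * ((ev g x) ^ t * ψ x) := by
      refine setIntegral_mono_on ((hint t h1).const_mul _) ?_ W.isOpen.measurableSet
        fun x hx => ?_
      · have h8 : IntegrableOn (fun x => ∑ j ∈ Finset.range D,
            t ^ j * ((ev g x) ^ t * (ev (R j) x * ψ x))) Δ := by
          refine integrable_finsetSum _ fun j _ => ?_
          have h9 : IntegrableOn (fun x => (ev g x) ^ t * (ev (R j) x * ψ x))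
            (Δ ∩ {x | ‖x‖ ≤ 2}) := hIp (R j) t h1
          refine Integrable.const_mul ?_ _
          refine h9.of_forall_sdiff_eq_zero W.isOpen.measurableSet fun x hx => ?_
          have h3 : 2 < ‖x‖ := by
            by_contra h4
            exact hx.2 ⟨hx.1, not_lt.1 h4⟩
          rw [hψ.supp x h3, mul_zero, mul_zero]
        refine h8.congr_fun (fun x _ => ?_) W.isOpen.measurableSet
        change ∑ j ∈ Finset.range D, t ^ j * ((ev g x) ^ t * (ev (R j) x * ψ x)) =
          (∑ j ∈ Finset.range D, t ^ j * eval x (R j)) * ((ev g x) ^ t * ψ x)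
        rw [Finset.sum_mul]
        refine Finset.sum_congr rfl fun j _ => ?_
        rw [ev, ev]
        ring
      · have h8 : 0 ≤ ev g x ^ t := Real.rpow_nonneg (W.pos x hx).le _
        by_cases h9 : ψ x = 0
        · rw [h9]
          simp
        · exact mul_le_mul_of_nonneg_right (hpos t h1 h3 x hx h9) (mul_nonneg h8 (hψ0 x hx))
    rw [integral_const_mul] at h7
    have h8 := le_abs_self (∫ x in Δ, (∑ j ∈ Finset.range D, t ^ j * eval x (R j)) *
      ((ev g x) ^ t * ψ x))
    linarith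
  set tt : ℕ → ℝ := fun j => -κ + min δ 1 / (j + 2) with htt
  have hδ1 : 0 < min δ 1 := lt_min hδ one_pos
  have htlim : Tendsto tt atTop (𝓝 (-κ)) := by
    have h1 : Tendsto (fun j : ℕ => min δ 1 / ((j : ℝ) + 2)) atTop (𝓝 0) :=
      tendsto_const_nhds.div_atTop
        (tendsto_atTop_add_const_right _ _ tendsto_natCast_atTop_atTop)
    have h2 := h1.const_add (-κ)
    rwa [add_zero] at h2
  have h1 : ∫⁻ x in Δ, ENNReal.ofReal (ev g x ^ (-κ) * ψ x) ≤ ENNReal.ofReal (2 * C') := by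
    calc ∫⁻ x in Δ, ENNReal.ofReal (ev g x ^ (-κ) * ψ x) =
        ∫⁻ x in Δ, liminf (fun j => ENNReal.ofReal (ev g x ^ (tt j) * ψ x)) atTop := by
          refine setLIntegral_congr_fun W.isOpen.measurableSet fun x hx => ?_
          have h2 : Tendsto (fun j => ENNReal.ofReal (ev g x ^ (tt j) * ψ x)) atTop
              (𝓝 (ENNReal.ofReal (ev g x ^ (-κ) * ψ x))) :=
            ENNReal.tendsto_ofReal
              (((Real.continuousAt_const_rpow (W.pos x hx).ne').tendsto.comp htlim).mul_const _)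
          exact h2.liminf_eq.symm
      _ ≤ liminf (fun j => ∫⁻ x in Δ, ENNReal.ofReal (ev g x ^ (tt j) * ψ x)) atTop :=
          lintegral_liminf_le fun j => ((W.cont.measurable.pow_const _).mul
            hψ.smooth.continuous.measurable).ennreal_ofReal
      _ ≤ ENNReal.ofReal (2 * C') := by
          refine liminf_le_of_frequently_le' (Frequently.of_forall fun j => ?_)
          refine hbd _ ?_ ?_
          · have : 0 < min δ 1 / ((j : ℝ) + 2) := by positivity
            change -κ < -κ + min δ 1 / ((j : ℝ) + 2)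
            linarith
          · have : min δ 1 / ((j : ℝ) + 2) < min δ 1 := by
              rw [div_lt_iff₀ (by positivity)]
              nlinarith [Nat.cast_nonneg (α := ℝ) j]
            change -κ + min δ 1 / ((j : ℝ) + 2) < -κ + min δ 1
            linarith
  rw [htop] at h1
  exact absurd h1 (not_le.2 ENNReal.ofReal_lt_top)

end Pool.Agent.Helper16.WL
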