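import Pool.Graph.R_pool_sql_team_seeded_5cf16337.K3h38.SM.Mult
import Pool.Agent.Helper16.WL.Fam

set_option autoImplicit false

/-! # Functional equations at a point: coordinates, and the roots of a factor of multiplicity `n` -/

namespace Pool.Agent.Helper16.WL

open MvPolynomial Pool.Agent.H628R4.TP Pool.Agent.K3h38.SM Pool.Agent.Helper16.WM.CoordN

theorem eval_equiv {N : ℕ} (Φ : MvPolynomial (Fin N) ℂ ≃ₐ[ℂ] MvPolynomial (Fin N) ℂ)
    {x₀ : Fin N → ℂ} (h : ∀ i, eval 0 (Φ (X i)) = x₀ i) (u : MvPolynomial (Fin N) ℂ) :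
    eval 0 (Φ u) = eval x₀ u := by
  induction u using MvPolynomial.induction_on with
  | C a =>
    have h1 : Φ (C a) = C a := by
      have := Φ.commutes a
      rwa [MvPolynomial.algebraMap_eq] at this
    rw [h1, eval_C, eval_C]
  | add p q hp hq => rw [map_add, map_add, map_add, hp, hq]
  | mul_X p i hp => rw [map_mul, map_mul, map_mul, hp, h i, eval_X]

/-- functional equations in other coordinates -/
theorem at_equiv {N : ℕ} (Φ : MvPolynomial (Fin N) ℂ ≃ₐ[ℂ] MvPolynomial (Fin N) ℂ)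
    {x₀ : Fin N → ℂ} (hΦ : ∀ i, eval 0 (Φ (X i)) = x₀ i)
    (f : MvPolynomial (Fin N) ℂ) (b : Polynomial ℂ) (h : IsBFunctionAt x₀ f b) :
    IsBFunctionAt 0 (Φ f) b := by
  obtain ⟨u, hu, P, hP⟩ := h
  have h0 : (⟨cj Φ ((0 : weylS (Fin N)) : Module.End ℂ (MvPolynomial (Fin N) ℂ)),
      conj_mem Φ _ (0 : weylS (Fin N)).2⟩ : weylS (Fin N)) = 0 := by
    apply Subtype.ext
    change cj Φ 0 = 0
    exact cj_zero Φ
  refine ⟨Φ u, by rwa [eval_equiv Φ hΦ],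
    P.mapRange (fun Q : weylS (Fin N) => (⟨cj Φ (Q : Module.End ℂ (MvPolynomial (Fin N) ℂ)),
    conj_mem Φ _ Q.2⟩ : weylS (Fin N))) h0, fun s => ?_⟩
  have h1 := congrArg Φ (hP s)
  rw [map_mul, map_mul, map_pow] at h1
  have h2 : Φ (C (b.eval (s : ℂ))) = C (b.eval (s : ℂ)) := by
    have := Φ.commutes (b.eval (s : ℂ))
    rwa [MvPolynomial.algebraMap_eq] at this
  rw [h2] at h1
  rw [h1, Finsupp.sum, map_sum, Finsupp.sum_mapRange_index]
  · rw [Finsupp.sum]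
    refine Finset.sum_congr rfl fun m _ => ?_
    change Φ (((s : ℂ) ^ m) • (P m : Module.End ℂ (MvPolynomial (Fin N) ℂ)) (f ^ (s + 1))) =
      ((s : ℂ) ^ m) • cj Φ (P m : Module.End ℂ (MvPolynomial (Fin N) ℂ)) ((Φ f) ^ (s + 1))
    rw [map_smul, cj_apply, ← map_pow Φ f, Φ.symm_apply_apply]
  · intro m
    change ((s : ℂ) ^ m) • (0 : Module.End ℂ (MvPolynomial (Fin N) ℂ)) _ = 0
    rw [LinearMap.zero_apply, smul_zero]

/-- **The roots of a factor of multiplicity `n` through the point.** -/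
theorem root_of_mult_at {N : ℕ} {x₀ : Fin N → ℂ} (f p q : MvPolynomial (Fin N) ℂ) (n j : ℕ)
    (hj : 1 ≤ j) (hjn : j ≤ n) (hf : f = p ^ n * q) (hp : Prime p) (hpx : eval x₀ p = 0)
    (hpq : ¬ p ∣ q) (b : Polynomial ℂ) (hb : IsBFunctionAt x₀ f b) :
    b.eval (-(j : ℂ) / n) = 0 := by
  classical
  have hN : 1 ≤ n := hj.trans hjn
  have hNC : (n : ℂ) ≠ 0 := by
    have : n ≠ 0 := by omega
    exact_mod_cast this
  set s0 : ℂ := -(j : ℂ) / n with hs0
  obtain ⟨u, hu, P, hP⟩ := hb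
  obtain ⟨R, V, hV, hd, h⟩ := actD_sum f p q n j hN hj hjn s0 (by rw [hs0]; field_simp) hf
    P.support (fun m => (P m : Module.End ℂ (MvPolynomial (Fin N) ℂ))) (fun m _ => (P m).2)
  have hq0 : q ≠ 0 := fun h0 => hpq (h0 ▸ dvd_zero p)
  have hf0 : f ≠ 0 := by rw [hf]; exact mul_ne_zero (pow_ne_zero _ hp.ne_zero) hq0
  have key := IsPS.eq_of_nat (g := fun s => C (b.eval s) * (u * f ^ R)) (h := V)
    ((isPS_eval b).mul (IsPS.const _)) hV (fun s => by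
      apply mul_left_cancel₀ (pow_ne_zero s hf0)
      rw [← h s]
      have h1 := hP s
      rw [Finsupp.sum] at h1
      rw [← h1]
      ring) s0
  rw [← key, hf] at hd
  have h2 : p ^ (j + n * R) = p ^ (n * R) * p ^ j := by rw [← pow_add, add_comm]
  rw [h2, mul_pow, ← pow_mul, show C (b.eval s0) * (u * (p ^ (n * R) * q ^ R)) =
    p ^ (n * R) * (C (b.eval s0) * (u * q ^ R)) by ring] at hd
  have h3 := (mul_dvd_mul_iff_left (pow_ne_zero (n * R) hp.ne_zero)).1 hd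
  have h4 : p ∣ C (b.eval s0) * (u * q ^ R) := (dvd_pow_self p (by omega)).trans h3
  rcases hp.dvd_or_dvd h4 with h5 | h5
  · by_contra hne
    apply hp.not_isUnit
    exact isUnit_of_dvd_unit h5 ((isUnit_iff_ne_zero.2 hne).map C)
  · rcases hp.dvd_or_dvd h5 with ⟨v, hv⟩ | h6
    · exact absurd (by rw [hv, map_mul, hpx, zero_mul]) hu
    · exact absurd (hp.dvd_of_dvd_pow h6) hpq

theorem root_of_mult_mod {N : ℕ} {x₀ : Fin N → ℂ} {f : MvPolynomial (Fin N) ℂ} {m ν : ℕ}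
    (hm : 1 ≤ m) (h : ∃ (p q : MvPolynomial (Fin N) ℂ) (n : ℕ), 1 ≤ n ∧ Prime p ∧ eval x₀ p = 0 ∧
      f = p ^ n * q ∧ ¬ p ∣ q ∧ m ∣ n * ν) {b : Polynomial ℂ} (hb : IsBFunctionAt x₀ f b) :
    ∃ z : ℤ, b.eval (-(ν : ℂ) / m + z) = 0 := by
  obtain ⟨p, q, n, hn, hp, hpx, hf, hpq, hd⟩ := h
  obtain ⟨u, hu⟩ := hd
  have hn0 : (0 : ℤ) < n := by exact_mod_cast hn
  set j : ℕ := (((u : ℤ) - 1) % n).toNat + 1 with hj
  have h0 : 0 ≤ ((u : ℤ) - 1) % n := Int.emod_nonneg _ hn0.ne'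
  have h1 : ((u : ℤ) - 1) % n < n := Int.emod_lt_of_pos _ hn0
  have hjn : j ≤ n := by omega
  have h2 : ((j : ℕ) : ℤ) = ((u : ℤ) - 1) % n + 1 := by
    rw [hj]
    push_cast
    rw [Int.toNat_of_nonneg h0]
  have h3 : (u : ℤ) = j + n * (((u : ℤ) - 1) / n) := by
    rw [h2]
    have := Int.emod_add_mul_ediv ((u : ℤ) - 1) n
    linarith
  refine ⟨((u : ℤ) - 1) / n, ?_⟩
  have h4 := root_of_mult_at f p q n j (by omega) hjn hf hp hpx hpq b hb
  rw [← h4]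
  congr 1
  have hmC : (m : ℂ) ≠ 0 := by
    have : m ≠ 0 := by omega
    exact_mod_cast this
  have hnC : (n : ℂ) ≠ 0 := by
    have : n ≠ 0 := by omega
    exact_mod_cast this
  have h5 : (n : ℂ) * ν = m * u := by exact_mod_cast hu
  have h6 : (u : ℂ) = j + n * (((((u : ℤ) - 1) / n : ℤ)) : ℂ) := by
    exact_mod_cast congrArg (fun x : ℤ => (x : ℂ)) h3
  have h7 : (ν : ℂ) / m = (u : ℂ) / n := by
    rw [div_eq_div_iff hmC hnC]
    linear_combination h5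
  rw [neg_div, h7, neg_div]
  nth_rewrite 1 [h6]
  field_simp
  ring

end Pool.Agent.Helper16.WL
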