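import Pool.Agent.Helper16.WL.Fam

set_option autoImplicit false

/-! # Functional equations and factors which do not vanish at the point -/

namespace Pool.Agent.Helper16.WL

open MvPolynomial Pool.Agent.H628R4.TP Pool.Agent.Helper48.RC Pool.Agent.Helper16.WM.PowN

variable {σ K : Type} [Field K]

/-- `v ^ n E(s) = v ^ s E'(s)` for some `n` and some family `E'` for `g` -/
def UFam (v g : MvPolynomial σ K) (E : ℕ → MvPolynomial σ K) : Prop :=
  ∃ (n : ℕ) (E' : ℕ → MvPolynomial σ K), E' ∈ FamE g (fun s => s + 1) ∧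
    ∀ s : ℕ, v ^ n * E s = v ^ s * E' s

variable {v g : MvPolynomial σ K}

theorem UFam.add {E₁ E₂ : ℕ → MvPolynomial σ K} (h₁ : UFam v g E₁) (h₂ : UFam v g E₂) :
    UFam v g (E₁ + E₂) := by
  obtain ⟨n₁, E₁', hE₁, h₁⟩ := h₁
  obtain ⟨n₂, E₂', hE₂, h₂⟩ := h₂
  refine ⟨n₁ + n₂, (fun s => v ^ n₂ * E₁' s) + fun s => v ^ n₁ * E₂' s,
    (FamE g _).add_mem (famE_mul g _ _ _ hE₁) (famE_mul g _ _ _ hE₂), fun s => ?_⟩
  rw [Pi.add_apply, Pi.add_apply, pow_add]
  linear_combination v ^ n₂ * h₁ s + v ^ n₁ * h₂ s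

theorem UFam.mul (q : MvPolynomial σ K) {E : ℕ → MvPolynomial σ K} (h : UFam v g E) :
    UFam v g (fun s => q * E s) := by
  obtain ⟨n, E', hE, h⟩ := h
  refine ⟨n, fun s => q * E' s, famE_mul g _ _ _ hE, fun s => ?_⟩
  linear_combination q * h s

theorem UFam.pow (m : ℕ) {E : ℕ → MvPolynomial σ K} (h : UFam v g E) :
    UFam v g (fun s : ℕ => C ((s : K) ^ m) * E s) := by
  obtain ⟨n, E', hE, h⟩ := h
  refine ⟨n, fun s : ℕ => C ((s : K) ^ m) * E' s, famE_pow g _ m _ hE, fun s => ?_⟩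
  linear_combination C ((s : K) ^ m) * h s

theorem UFam.pderiv (i : σ) {E : ℕ → MvPolynomial σ K} (h : UFam v g E) :
    UFam v g (fun s => MvPolynomial.pderiv i (E s)) := by
  obtain ⟨n, E', hE, h⟩ := h
  refine ⟨n + 1, (fun s : ℕ => C ((s : K) ^ 1) * (MvPolynomial.pderiv i v * E' s)) +
    ((fun s => (-(n : MvPolynomial σ K) * MvPolynomial.pderiv i v) * E' s) +
      fun s => v * MvPolynomial.pderiv i (E' s)),
    (FamE g _).add_mem (famE_pow g _ 1 _ (famE_mul g _ _ _ hE))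
      ((FamE g _).add_mem (famE_mul g _ _ _ hE) (famE_mul g _ _ _ (famE_pderiv g _ i _ hE))),
    fun s => ?_⟩
  have h1 : v ^ (n + 1) * E s = v ^ (s + 1) * E' s := by
    rw [pow_succ, pow_succ]
    linear_combination v * h s
  have h2 := congrArg (MvPolynomial.pderiv i) h1
  rw [pderiv_mul, pderiv_mul, pderiv_pow, pderiv_pow, Nat.add_sub_cancel, Nat.add_sub_cancel] at h2
  rw [Pi.add_apply, Pi.add_apply, pow_one]
  have h3 : (C (s : K) : MvPolynomial σ K) = (s : MvPolynomial σ K) := map_natCast C s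
  rw [h3]
  push_cast at h2 ⊢
  rw [pow_succ v s] at h2
  linear_combination h2 - ((n : MvPolynomial σ K) + 1) * MvPolynomial.pderiv i v * h s

theorem UFam.dd (β : List σ) {E : ℕ → MvPolynomial σ K} (h : UFam v g E) :
    UFam v g (fun s => dd β (E s)) := by
  induction β with
  | nil => exact h
  | cons i β ih => exact ih.pderiv i

theorem ufam_of_fam (E : ℕ → MvPolynomial σ K) (hE : E ∈ Fam (v * g)) : UFam v g E := by
  let S : AddSubmonoid (ℕ → MvPolynomial σ K) :=
    { carrier := {E | UFam v g E}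
      add_mem' := fun h1 h2 => h1.add h2
      zero_mem' := ⟨0, 0, (FamE g _).zero_mem, fun s => by
        rw [Pi.zero_apply, mul_zero, mul_zero]⟩ }
  have hle : Fam (v * g) ≤ S := by
    refine AddSubmonoid.closure_le.2 ?_
    rintro E ⟨m, p, β, rfl⟩
    have h0 : UFam v g (fun s : ℕ => (v * g) ^ (s + 1)) := by
      refine ⟨0, genE g (fun s => s + 1) 0 v [], genE_mem _ _ _ _ _, fun s => ?_⟩
      rw [genE, pow_zero, pow_zero, C_1, one_mul, one_mul, dd_nil]
      change (v * g) ^ (s + 1) = v ^ s * (v * g ^ (s + 1))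
      rw [mul_pow, pow_succ v s]
      ring
    exact ((h0.dd β).mul p).pow m
  exact hle hE

/-- a factor which does not vanish at the point can be removed -/
theorem fam_unit (u : MvPolynomial σ K) (hv : v ≠ 0) (b : Polynomial K)
    (h : (fun s : ℕ => u * (C (b.eval (s : K)) * (v * g) ^ s)) ∈ Fam (v * g)) :
    ∃ n : ℕ, (fun s : ℕ => (u * v ^ n) * (C (b.eval (s : K)) * g ^ s)) ∈ Fam g := by
  obtain ⟨n, E', hE, h1⟩ := ufam_of_fam _ h
  refine ⟨n, ?_⟩
  have h2 : (fun s : ℕ => (u * v ^ n) * (C (b.eval (s : K)) * g ^ s)) = E' := by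
    funext s
    refine mul_left_cancel₀ (pow_ne_zero s hv) ?_
    rw [← h1 s]
    change v ^ s * (u * v ^ n * (C (b.eval (s : K)) * g ^ s)) =
      v ^ n * (u * (C (b.eval (s : K)) * (v * g) ^ s))
    rw [mul_pow]
    ring
  rw [h2]
  exact hE

end Pool.Agent.Helper16.WL
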